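import Mathlib

/-!
# MP_6bbf11_lc: Chang sets whose trace on `κ⁺` has prescribed cofinality

If there is a family of `κ⁺⁺` functions from `κ⁺` to `κ⁺` which is dominating modulo bounded sets
(for instance if `2 ^ κ⁺ = κ⁺⁺`), then `(κ⁺⁺⁺, κ⁺⁺) ↠_κ (κ⁺, κ)` implies that for every regular
cardinal `μ ≤ κ` the Chang sets `X` such that `X ∩ κ⁺` is an ordinal of cofinality `μ` are
stationary.

Proof. Let `X` be a Chang set closed under enough functions. For `a < κ⁺` the hull of `X ∪ a` still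
has only `κ` elements below `κ⁺⁺`: they are values `φ(e)` at finite `e ⊆ a` of functions `φ` from the
finite subsets of `κ⁺` to `κ⁺⁺` defined from parameters in `X`, and `φ` is covered, by means of the
dominating family, by a function with values of size at most `κ` which is coded by three ordinals of
`X` below `κ⁺⁺`. So the hull is bounded in `κ⁺` by some `h(a) < κ⁺`, and the hull of `X ∪ ε` is the
desired set, `ε` being the point with index `μ` of the normal function derived from `h`.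
-/

set_option autoImplicit false

namespace Pool.Agent.TH233.CT.TraceCofinality

open Set Cardinal Ordinal Order

/-- Terms over one finitary set function. -/
inductive Tm : Type
  | var : ℕ → Tm
  | nil : Tm
  | cons : Tm → Tm → Tm
  deriving Countable

instance : Nonempty Tm := ⟨Tm.nil⟩

/-- Value of a term (an ordinal and a finite set of ordinals). -/
noncomputable def ev (f : Finset Ordinal.{0} → Ordinal.{0}) (v : ℕ → Ordinal.{0}) :
    Tm → Ordinal.{0} × Finset Ordinal.{0}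
  | .var n => (v n, ∅)
  | .nil => (f ∅, ∅)
  | .cons t s => (f (insert (ev f v t).1 (ev f v s).2), insert (ev f v t).1 (ev f v s).2)

/-- The assignment of variables given by two finite sets. -/
noncomputable def asg (s e : Finset Ordinal.{0}) : ℕ → Ordinal.{0} := fun n =>
  if n % 2 = 0 then (s.sort (· ≤ ·)).getD (n / 2) 0 else (e.sort (· ≤ ·)).getD (n / 2) 0

/-- The closure of a set under a finitary set function. -/
inductive Cl (f : Finset Ordinal.{0} → Ordinal.{0}) (Y : Set Ordinal.{0}) : Ordinal.{0} → Prop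
  | base (a : Ordinal.{0}) : a ∈ Y → Cl f Y a
  | step (s : Finset Ordinal.{0}) : (∀ a ∈ s, Cl f Y a) → Cl f Y (f s)

theorem Cl.mono {f : Finset Ordinal.{0} → Ordinal.{0}} {Y Z : Set Ordinal.{0}} (h : Y ⊆ Z)
    {a : Ordinal.{0}} (ha : Cl f Y a) : Cl f Z a := by
  induction ha with
  | base a ha => exact .base a (h ha)
  | step s _ ih => exact .step s ih

theorem rep {f : Finset Ordinal.{0} → Ordinal.{0}} {X Z : Set Ordinal.{0}} {a : Ordinal.{0}}
    (h : Cl f (X ∪ Z) a) :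
    ∃ s e : Finset Ordinal.{0}, ((s : Set Ordinal.{0}) ⊆ X) ∧ ((e : Set Ordinal.{0}) ⊆ Z) ∧
      ∀ s' e' : Finset Ordinal.{0}, s ⊆ s' → e ⊆ e' → ∃ t, (ev f (asg s' e') t).1 = a := by
  induction h with
  | base a ha =>
    rcases ha with ha | ha
    · refine ⟨{a}, ∅, by simpa using ha, by simp, fun s' e' hs _ => ?_⟩
      have hmem : a ∈ s'.sort (· ≤ ·) := by
        rw [Finset.mem_sort]; exact hs (Finset.mem_singleton_self a)
      refine ⟨.var (2 * (s'.sort (· ≤ ·)).idxOf a), ?_⟩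
      simp only [ev, asg]
      rw [if_pos (by omega), Nat.mul_div_cancel_left _ (by norm_num),
        List.getD_eq_getElem _ _ (List.idxOf_lt_length_iff.mpr hmem), List.getElem_idxOf]
    · refine ⟨∅, {a}, by simp, by simpa using ha, fun s' e' _ he => ?_⟩
      have hmem : a ∈ e'.sort (· ≤ ·) := by
        rw [Finset.mem_sort]; exact he (Finset.mem_singleton_self a)
      refine ⟨.var (2 * (e'.sort (· ≤ ·)).idxOf a + 1), ?_⟩
      simp only [ev, asg]
      rw [if_neg (by omega), show (2 * (e'.sort (· ≤ ·)).idxOf a + 1) / 2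
          = (e'.sort (· ≤ ·)).idxOf a by omega,
        List.getD_eq_getElem _ _ (List.idxOf_lt_length_iff.mpr hmem), List.getElem_idxOf]
  | step S _ ih =>
    choose! σ ε h using ih
    refine ⟨S.biUnion σ, S.biUnion ε, ?_, ?_, fun s' e' hs he => ?_⟩
    · intro x hx
      rw [Finset.mem_coe, Finset.mem_biUnion] at hx
      obtain ⟨b, hb, hx⟩ := hx
      exact (h b hb).1 hx
    · intro x hx
      rw [Finset.mem_coe, Finset.mem_biUnion] at hx
      obtain ⟨b, hb, hx⟩ := hx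
      exact (h b hb).2.1 hx
    · have key : ∀ R : Finset Ordinal.{0}, R ⊆ S →
          ∃ T, (ev f (asg s' e') T).2 = R ∧ (ev f (asg s' e') T).1 = f R := by
        intro R
        induction R using Finset.induction_on with
        | empty => exact fun _ => ⟨.nil, rfl, rfl⟩
        | insert b R hb ihR =>
          intro hR
          obtain ⟨T, hT, _⟩ := ihR (fun x hx => hR (Finset.mem_insert_of_mem hx))
          have hbS := hR (Finset.mem_insert_self b R)
          obtain ⟨t, ht⟩ := (h b hbS).2.2 s' e'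
            ((Finset.subset_biUnion_of_mem σ hbS).trans hs)
            ((Finset.subset_biUnion_of_mem ε hbS).trans he)
          refine ⟨.cons t T, ?_, ?_⟩
          · simp only [ev, hT, ht]
          · simp only [ev, hT, ht]
      obtain ⟨T, _, hT⟩ := key S subset_rfl
      exact ⟨T, hT⟩

/-- Chang sets -/
def Chg (κ : Cardinal.{0}) (X : Set Ordinal.{0}) : Prop :=
  X ⊆ Iio (succ (succ (succ κ))).ord ∧
  #X = Cardinal.lift.{1} (succ κ) ∧
  #↥(X ∩ Iio (succ (succ κ)).ord) = Cardinal.lift.{1} κ ∧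
  Iio κ.ord ⊆ X

/-- `f` maps finite subsets of `κ⁺⁺⁺` to `κ⁺⁺⁺`. -/
def Pre (κ : Cardinal.{0}) (f : Finset Ordinal.{0} → Ordinal.{0}) : Prop :=
  ∀ s : Finset Ordinal.{0}, (∀ a ∈ s, a < (succ (succ (succ κ))).ord) →
    f s < (succ (succ (succ κ))).ord

theorem multi {κ : Cardinal.{0}} (hκ : ℵ₀ ≤ κ)
    (H : ∀ f, Pre κ f → ∃ X, Chg κ X ∧ ∀ s : Finset Ordinal.{0}, (∀ a ∈ s, a ∈ X) → f s ∈ X)
    (g : ℕ → Finset Ordinal.{0} → Ordinal.{0}) (hg : ∀ n, Pre κ (g n)) :
    ∃ X, Chg κ X ∧ ∀ n, ∀ s : Finset Ordinal.{0}, (∀ a ∈ s, a ∈ X) → g n s ∈ X := by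
  let N : Finset Ordinal.{0} → ℕ := fun s =>
    Cardinal.toNat (((s.filter (· < ω)).sup id).card)
  let f : Finset Ordinal.{0} → Ordinal.{0} := fun s =>
    g (Nat.unpair (N s)).1 (s.erase ((N s : ℕ) : Ordinal.{0}))
  obtain ⟨X, hX, hcl⟩ := H f (fun s hs => hg _ _ (fun a ha => hs a (Finset.mem_of_mem_erase ha)))
  refine ⟨X, hX, fun n s hs => ?_⟩
  have hsup : (s.filter (· < ω)).sup id < (ω : Ordinal.{0}) := by
    rw [Finset.sup_lt_iff (by simp)]
    intro b hb
    exact (Finset.mem_filter.mp hb).2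
  obtain ⟨m, hm⟩ := Ordinal.lt_omega0.mp hsup
  set M : ℕ := Nat.pair n (m + 1) with hM
  have hMm : m + 1 ≤ M := Nat.right_le_pair n (m + 1)
  have hMX : (M : Ordinal.{0}) ∈ X := by
    apply hX.2.2.2
    rw [Set.mem_Iio]
    refine lt_of_lt_of_le (Ordinal.natCast_lt_omega0 M) ?_
    rw [← Cardinal.ord_aleph0]
    exact Cardinal.ord_le_ord.mpr hκ
  have hMs : (M : Ordinal.{0}) ∉ s := by
    intro h
    have h1 : (M : Ordinal.{0}) ≤ (s.filter (· < ω)).sup id :=
      Finset.le_sup (f := id) (Finset.mem_filter.mpr ⟨h, Ordinal.natCast_lt_omega0 M⟩)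
    rw [hm] at h1
    have : M ≤ m := by exact_mod_cast h1
    omega
  have hN : N (insert (M : Ordinal.{0}) s) = M := by
    have h1 : ((insert (M : Ordinal.{0}) s).filter (· < ω)).sup id = (M : Ordinal.{0}) := by
      rw [Finset.filter_insert, if_pos (Ordinal.natCast_lt_omega0 M), Finset.sup_insert, hm]
      apply max_eq_left
      simp only [id]
      exact_mod_cast (by omega : m ≤ M)
    simp only [N]
    rw [h1]
    simp
  have h2 := hcl (insert (M : Ordinal.{0}) s) (by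
    intro a ha
    rcases Finset.mem_insert.mp ha with rfl | ha
    · exact hMX
    · exact hs a ha)
  have h3 : f (insert (M : Ordinal.{0}) s) = g n s := by
    simp only [f]
    rw [hN, hM, Nat.unpair_pair, ← hM, Finset.erase_insert hMs]
  rwa [h3] at h2


section Main

variable {κ : Cardinal.{0}}

/-- `D` is a family of `κ⁺⁺` functions from `κ⁺` to `κ⁺` which is dominating modulo bounded
sets. -/
def Dom (κ : Cardinal.{0}) (D : Ordinal.{0} → Ordinal.{0} → Ordinal.{0}) : Prop :=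
  (∀ ξ < (succ (succ κ)).ord, ∀ α < (succ κ).ord, D ξ α < (succ κ).ord) ∧
  ∀ g : Ordinal.{0} → Ordinal.{0}, (∀ α < (succ κ).ord, g α < (succ κ).ord) →
    ∃ ξ < (succ (succ κ)).ord, ∃ b < (succ κ).ord, ∀ α, b ≤ α → α < (succ κ).ord → g α ≤ D ξ α

theorem small_hull (hκ : ℵ₀ ≤ κ) {D : Ordinal.{0} → Ordinal.{0} → Ordinal.{0}} (hD : Dom κ D)
    (H : ∀ f, Pre κ f → ∃ X, Chg κ X ∧ ∀ s : Finset Ordinal.{0}, (∀ a ∈ s, a ∈ X) → f s ∈ X)
    (f : Finset Ordinal.{0} → Ordinal.{0}) :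
    ∃ X, Chg κ X ∧ ∀ a < (succ κ).ord,
      #↥({x | Cl f (X ∪ Iio a) x} ∩ Iio (succ (succ κ)).ord) ≤ Cardinal.lift.{1} κ := by
  have hlt01 : κ < succ κ := Order.lt_succ κ
  have hlt12 : succ κ < succ (succ κ) := Order.lt_succ _
  have hlt23 : succ (succ κ) < succ (succ (succ κ)) := Order.lt_succ _
  have hκ1 : ℵ₀ ≤ succ κ := hκ.trans hlt01.le
  have hκ2 : ℵ₀ ≤ succ (succ κ) := hκ1.trans hlt12.le
  have hreg1 : (succ κ).IsRegular := Cardinal.isRegular_succ hκ
  have hreg2 : (succ (succ κ)).IsRegular := Cardinal.isRegular_succ hκ1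
  have hpos2 : (0 : Ordinal.{0}) < (succ (succ κ)).ord := by
    rw [Cardinal.lt_ord]
    simp
  have hA : #↥(Iio (succ κ).ord) = Cardinal.lift.{1} (succ κ) := by
    rw [Cardinal.mk_Iio_ordinal, Cardinal.card_ord]
  have : Infinite ↥(Iio (succ κ).ord) := by
    rw [Cardinal.infinite_iff, hA]
    exact Cardinal.aleph0_le_lift.mpr hκ1
  have hord12 : (succ κ).ord < (succ (succ κ)).ord := Cardinal.ord_lt_ord.mpr hlt12
  have hord23 : (succ (succ κ)).ord < (succ (succ (succ κ))).ord := Cardinal.ord_lt_ord.mpr hlt23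
  -- a bijection of the finite subsets of `κ⁺` with `κ⁺`
  obtain ⟨θ⟩ := Cardinal.eq.mp (Cardinal.mk_finset_of_infinite ↥(Iio (succ κ).ord))
  -- injections of the ordinals below `κ⁺⁺` into `κ⁺`
  have hemb : ∀ β < (succ (succ κ)).ord, ∃ k : Ordinal.{0} → Ordinal.{0},
      InjOn k (Iio β) ∧ ∀ y < β, k y < (succ κ).ord := by
    intro β hβ
    have h1 : #↥(Iio β) ≤ #↥(Iio (succ κ).ord) := by
      rw [hA, Cardinal.mk_Iio_ordinal, Cardinal.lift_le]
      exact Order.lt_succ_iff.mp (Cardinal.lt_ord.mp hβ)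
    obtain ⟨k⟩ := Cardinal.le_def _ _ |>.mp h1
    refine ⟨fun y => if h : y < β then (k ⟨y, h⟩ : Ordinal.{0}) else 0, ?_, ?_⟩
    · intro x hx y hy hxy
      simp only [dif_pos (show x < β from hx), dif_pos (show y < β from hy)] at hxy
      have h2 := k.injective (Subtype.ext hxy)
      exact congrArg Subtype.val h2
    · intro y hy
      simp only [dif_pos hy]
      exact (k ⟨y, hy⟩).2
  choose! k hkinj hklt using hemb
  -- covering of the functions from finite subsets of `κ⁺` to `κ⁺⁺`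
  have hcov : ∀ φ : Finset ↥(Iio (succ κ).ord) → ↥(Iio (succ (succ κ)).ord),
      ∃ β < (succ (succ κ)).ord, ∃ ξ < (succ (succ κ)).ord, ∃ c < (succ κ).ord,
        ∀ e, (φ e : Ordinal.{0}) < β ∧
          k β (φ e) ≤ max (D ξ (θ e : ↥(Iio (succ κ).ord))) c := by
    intro φ
    have hβ : (⨆ e, ((φ e : Ordinal.{0}) + 1)) < (succ (succ κ)).ord := by
      apply Ordinal.lift_iSup_add_one_lt_of_lt_cof
      · rw [← Ordinal.lift_cof, hreg2.cof_ord, Cardinal.mk_finset_of_infinite, hA]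
        simp
      · exact fun e => (φ e).2
    set β := ⨆ e, ((φ e : Ordinal.{0}) + 1) with hβdef
    have hφβ : ∀ e, (φ e : Ordinal.{0}) < β := by
      intro e
      have h1 : (φ e : Ordinal.{0}) + 1 ≤ β :=
        le_ciSup (f := fun e => (φ e : Ordinal.{0}) + 1)
          ⟨(succ (succ κ)).ord, by
            rintro _ ⟨y, rfl⟩
            exact Order.add_one_le_of_lt (φ y).2⟩ e
      exact lt_of_lt_of_le (Order.lt_add_one_iff.mpr le_rfl) h1
    let g : Ordinal.{0} → Ordinal.{0} := fun α =>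
      if hα : α < (succ κ).ord then k β (φ (θ.symm ⟨α, hα⟩)) else 0
    have hg : ∀ α < (succ κ).ord, g α < (succ κ).ord := by
      intro α hα
      simp only [g, dif_pos hα]
      exact hklt β hβ _ (hφβ _)
    obtain ⟨ξ, hξ, b, hb, hdom⟩ := hD.2 g hg
    have hc : (⨆ x : ↥(Iio b), g x) < (succ κ).ord := by
      apply Ordinal.lift_iSup_lt_of_lt_cof
      · rw [← Ordinal.lift_cof, hreg1.cof_ord]
        have h1 : #↥(Iio b) < Cardinal.lift.{1} (succ κ) := by
          rw [Cardinal.mk_Iio_ordinal, Cardinal.lift_lt]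
          exact Cardinal.lt_ord.mp hb
        simpa using h1
      · exact fun x => hg x (lt_trans x.2 hb)
    refine ⟨β, hβ, ξ, hξ, _, hc, fun e => ⟨hφβ e, ?_⟩⟩
    have hge : g (θ e : ↥(Iio (succ κ).ord)) = k β (φ e) := by
      have h1 : ((θ e : ↥(Iio (succ κ).ord)) : Ordinal.{0}) < (succ κ).ord := (θ e).2
      have h2 : (⟨((θ e : ↥(Iio (succ κ).ord)) : Ordinal.{0}), h1⟩ : ↥(Iio (succ κ).ord)) = θ e :=
        Subtype.ext rfl
      simp only [g]
      rw [dif_pos h1, h2, Equiv.symm_apply_apply]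
    rw [← hge]
    rcases lt_or_ge ((θ e : ↥(Iio (succ κ).ord)) : Ordinal.{0}) b with h | h
    · exact le_max_of_le_right (le_ciSup (f := fun x : ↥(Iio b) => g x)
        ⟨(succ κ).ord, by rintro _ ⟨y, rfl⟩; exact (hg y (lt_trans y.2 hb)).le⟩ ⟨_, h⟩)
    · exact le_max_of_le_left (hdom _ h (θ e).2)
  choose β hβ ξ hξ c hc hcov using hcov
  let Φ : Tm → Finset Ordinal.{0} → (Finset ↥(Iio (succ κ).ord) → ↥(Iio (succ (succ κ)).ord)) :=
    fun t s e =>
      if h : (ev f (asg s (e.map (Function.Embedding.subtype _))) t).1 < (succ (succ κ)).ord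
        then ⟨_, h⟩ else ⟨0, hpos2⟩
  obtain ⟨u, hu⟩ := exists_surjective_nat (Tm × Fin 3)
  let G : Tm × Fin 3 → Finset Ordinal.{0} → Ordinal.{0} := fun p s =>
    if p.2 = 0 then β (Φ p.1 s) else if p.2 = 1 then ξ (Φ p.1 s) else c (Φ p.1 s)
  have hG : ∀ p s, G p s < (succ (succ κ)).ord := by
    intro p s
    simp only [G]
    split_ifs
    · exact hβ _
    · exact hξ _
    · exact (hc _).trans hord12
  obtain ⟨X, hX, hcl⟩ := multi hκ H (fun n s => G (u n) s)
    (fun n s _ => (hG (u n) s).trans hord23)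
  refine ⟨X, hX, fun a ha => ?_⟩
  have hcl' : ∀ p, ∀ s : Finset Ordinal.{0}, (∀ x ∈ s, x ∈ X) →
      G p s ∈ X ∩ Iio (succ (succ κ)).ord := by
    intro p s hs
    obtain ⟨n, rfl⟩ := hu p
    exact ⟨hcl n s hs, hG _ _⟩
  have hDa : #↥(Iio a) ≤ Cardinal.lift.{1} κ := by
    rw [Cardinal.mk_Iio_ordinal, Cardinal.lift_le]
    exact Order.lt_succ_iff.mp (Cardinal.lt_ord.mp ha)
  have hlκ : ℵ₀ ≤ Cardinal.lift.{1} κ := by simpa using hκ
  have hFD : #(Finset ↥(Iio a)) ≤ Cardinal.lift.{1} κ := by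
    rcases finite_or_infinite ↥(Iio a) with hfin | hinf
    · have := hfin
      exact (Cardinal.mk_le_aleph0).trans hlκ
    · rw [Cardinal.mk_finset_of_infinite]; exact hDa
  let j : ↥(Iio a) ↪ ↥(Iio (succ κ).ord) :=
    ⟨fun x => ⟨x.1, x.2.trans ha⟩, fun x y h => Subtype.ext (by
      have h0 := congrArg Subtype.val h; exact h0)⟩
  let Q := ↥(X ∩ Iio (succ (succ κ)).ord) × ↥(X ∩ Iio (succ (succ κ)).ord) ×
    ↥(X ∩ Iio (succ (succ κ)).ord) × Finset ↥(Iio a)
  let W : Q → Set Ordinal.{0} := fun q =>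
    {y | y < q.1 ∧ (q.2.2.1 : Ordinal.{0}) < (succ κ).ord ∧
      k q.1 y ≤ max (D q.2.1 (θ (q.2.2.2.map j) : ↥(Iio (succ κ).ord))) q.2.2.1}
  have hW : ∀ q, #↥(W q) ≤ Cardinal.lift.{1} κ := by
    intro q
    by_cases hq : (q.2.2.1 : Ordinal.{0}) < (succ κ).ord
    · set m := max (D q.2.1 (θ (q.2.2.2.map j) : ↥(Iio (succ κ).ord))) (q.2.2.1 : Ordinal.{0})
        with hm
      have hm1 : m < (succ κ).ord :=
        max_lt (hD.1 _ q.2.1.2.2 _ (θ (q.2.2.2.map j)).2) hq
      have hm2 : succ m < (succ κ).ord := (Cardinal.isSuccLimit_ord hκ1).succ_lt hm1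
      have h1 : #↥(Iio (succ m)) ≤ Cardinal.lift.{1} κ := by
        rw [Cardinal.mk_Iio_ordinal, Cardinal.lift_le]
        exact Order.lt_succ_iff.mp (Cardinal.lt_ord.mp hm2)
      refine le_trans (Cardinal.mk_le_of_injective (f := fun y : ↥(W q) =>
        (⟨k q.1 y, Order.lt_succ_iff.mpr y.2.2.2⟩ : ↥(Iio (succ m)))) ?_) h1
      intro y z hyz
      have h0 := congrArg Subtype.val hyz
      exact Subtype.ext (hkinj q.1 q.1.2.2 y.2.1 z.2.1 h0)
    · have : W q = ∅ := by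
        ext y
        simp only [W, Set.mem_ofPred_eq, Set.mem_empty_iff_false, iff_false]
        rintro ⟨_, h, _⟩
        exact hq h
      rw [this]
      simp
  have hsub : ({x | Cl f (X ∪ Iio a) x} ∩ Iio (succ (succ κ)).ord) ⊆ ⋃ q, W q := by
    rintro x ⟨hx, hx2⟩
    obtain ⟨s, e, hs, he, h⟩ := rep hx
    obtain ⟨t, ht⟩ := h s e subset_rfl subset_rfl
    have hmap : (((e.subtype (· ∈ Iio a)).map j).map (Function.Embedding.subtype _)) = e := by
      rw [Finset.map_map]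
      ext y
      simp only [Finset.mem_map, Finset.mem_subtype]
      constructor
      · rintro ⟨z, hz, rfl⟩
        exact hz
      · intro hy
        exact ⟨⟨y, he hy⟩, hy, rfl⟩
    have hval : (Φ t s ((e.subtype (· ∈ Iio a)).map j) : Ordinal.{0}) = x := by
      simp only [Φ]
      rw [hmap]
      rw [dif_pos (by rw [ht]; exact hx2)]
      exact ht
    rw [Set.mem_iUnion]
    refine ⟨(⟨G (t, 0) s, hcl' (t, 0) s fun y hy => hs hy⟩,
      ⟨G (t, 1) s, hcl' (t, 1) s fun y hy => hs hy⟩,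
      ⟨G (t, 2) s, hcl' (t, 2) s fun y hy => hs hy⟩, e.subtype (· ∈ Iio a)), ?_⟩
    have h1 := hcov (Φ t s) ((e.subtype (· ∈ Iio a)).map j)
    rw [hval] at h1
    have hG0 : G (t, 0) s = β (Φ t s) := by simp [G]
    have hG1 : G (t, 1) s = ξ (Φ t s) := by simp [G]
    have hG2 : G (t, 2) s = c (Φ t s) := by simp [G]
    simp only [W, Set.mem_ofPred_eq]
    rw [hG0, hG1, hG2]
    exact ⟨h1.1, hc _, h1.2⟩
  have hQ : #Q ≤ Cardinal.lift.{1} κ := by
    have hXC : #↥(X ∩ Iio (succ (succ κ)).ord) ≤ Cardinal.lift.{1} κ := hX.2.2.1.le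
    have e1 : #Q = #↥(X ∩ Iio (succ (succ κ)).ord) * (#↥(X ∩ Iio (succ (succ κ)).ord) *
        (#↥(X ∩ Iio (succ (succ κ)).ord) * #(Finset ↥(Iio a)))) := by
      simp only [Q, Cardinal.mk_prod, Cardinal.lift_id]
    rw [e1]
    exact Cardinal.mul_le_of_le hlκ hXC (Cardinal.mul_le_of_le hlκ hXC
      (Cardinal.mul_le_of_le hlκ hXC hFD))
  calc #↥({x | Cl f (X ∪ Iio a) x} ∩ Iio (succ (succ κ)).ord) ≤ #↥(⋃ q, W q) :=
        Cardinal.mk_le_mk_of_subset hsub
    _ ≤ #Q * ⨆ q, #↥(W q) := Cardinal.mk_iUnion_le _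
    _ ≤ Cardinal.lift.{1} κ := Cardinal.mul_le_of_le hlκ hQ (ciSup_le' hW)

theorem exists_bound (hκ : ℵ₀ ≤ κ) {f : Finset Ordinal.{0} → Ordinal.{0}} {X : Set Ordinal.{0}}
    {a : Ordinal.{0}}
    (hX : #↥({x | Cl f (X ∪ Iio a) x} ∩ Iio (succ (succ κ)).ord) ≤ Cardinal.lift.{1} κ) :
    ∃ b < (succ κ).ord, ∀ x, Cl f (X ∪ Iio a) x → x < (succ κ).ord → x ≤ b := by
  have hlt01 : κ < succ κ := Order.lt_succ κ
  have hreg : (succ κ).IsRegular := Cardinal.isRegular_succ hκ
  let S : Set Ordinal.{0} := {x | Cl f (X ∪ Iio a) x} ∩ Iio (succ κ).ord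
  have hSsub : S ⊆ {x | Cl f (X ∪ Iio a) x} ∩ Iio (succ (succ κ)).ord := by
    rintro x ⟨hx, hx1⟩
    exact ⟨hx, lt_trans hx1 (Cardinal.ord_lt_ord.mpr (Order.lt_succ _))⟩
  have hS : #↥S ≤ Cardinal.lift.{1} κ := (Cardinal.mk_le_mk_of_subset hSsub).trans hX
  have hlt : (⨆ x : ↥S, (x : Ordinal.{0})) < (succ κ).ord := by
    apply Ordinal.lift_iSup_lt_of_lt_cof
    · rw [← Ordinal.lift_cof, hreg.cof_ord]
      refine lt_of_le_of_lt (b := Cardinal.lift.{1} κ) ?_ (Cardinal.lift_lt.mpr hlt01)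
      simpa using hS
    · exact fun x => x.2.2
  refine ⟨_, hlt, fun x hx hx1 => ?_⟩
  exact le_ciSup (f := fun x : ↥S => (x : Ordinal.{0}))
    ⟨(succ κ).ord, by rintro _ ⟨y, rfl⟩; exact y.2.2.le⟩ ⟨x, hx, hx1⟩

theorem main (hκ : ℵ₀ ≤ κ) {D : Ordinal.{0} → Ordinal.{0} → Ordinal.{0}} (hD : Dom κ D)
    (H : ∀ f, Pre κ f → ∃ X, Chg κ X ∧ ∀ s : Finset Ordinal.{0}, (∀ a ∈ s, a ∈ X) → f s ∈ X)
    (μ : Cardinal.{0}) (hμ : μ.IsRegular) (hμκ : μ ≤ κ)
    (f : Finset Ordinal.{0} → Ordinal.{0}) (hf : Pre κ f) :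
    ∃ Y, Chg κ Y ∧ (∀ s : Finset Ordinal.{0}, (∀ a ∈ s, a ∈ Y) → f s ∈ Y) ∧
      ∃ ε : Ordinal.{0}, Y ∩ Iio (succ κ).ord = Iio ε ∧ ε.cof = μ ∧ sSup (Iio ε) = ε := by
  have hlt01 : κ < succ κ := Order.lt_succ κ
  have hlt12 : succ κ < succ (succ κ) := Order.lt_succ _
  have hlt23 : succ (succ κ) < succ (succ (succ κ)) := Order.lt_succ _
  have hκ1 : ℵ₀ ≤ succ κ := hκ.trans hlt01.le
  have hreg : (succ κ).IsRegular := Cardinal.isRegular_succ hκ
  obtain ⟨X, hX, hsm⟩ := small_hull hκ hD H f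
  -- the bounding function
  let B : Ordinal.{0} → Set Ordinal.{0} := fun a =>
    {b | ∀ x, Cl f (X ∪ Iio a) x → x < (succ κ).ord → x ≤ b}
  have hBne : ∀ a, (B a).Nonempty := fun a => ⟨(succ κ).ord, fun x _ hx => hx.le⟩
  let h : Ordinal.{0} → Ordinal.{0} := fun a => sInf (B a)
  have hmem : ∀ a, h a ∈ B a := fun a => csInf_mem (hBne a)
  have hmono : Monotone h := by
    intro a b hab
    apply csInf_le'
    intro x hx hx1
    exact hmem b x (hx.mono (Set.union_subset_union_right _ (Set.Iio_subset_Iio hab))) hx1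
  have hlt : ∀ a < (succ κ).ord, h a < (succ κ).ord := by
    intro a ha
    obtain ⟨b, hb, hb1⟩ := exists_bound hκ (hsm a ha)
    exact lt_of_le_of_lt (csInf_le' hb1) hb
  let E : Ordinal.{0} → Ordinal.{0} := Ordinal.deriv h
  have hEn : Order.IsNormal E := Ordinal.isNormal_deriv h
  have hEs : ∀ j, h (E j) ≤ E (succ j) := by
    intro j
    change h (Ordinal.deriv h j) ≤ Ordinal.deriv h (succ j)
    rw [Ordinal.deriv_succ]
    refine (hmono (Order.le_succ _)).trans ?_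
    exact Ordinal.iterate_le_nfp h (succ (Ordinal.deriv h j)) 1
  have hElt : ∀ j < (succ κ).ord, E j < (succ κ).ord := by
    intro j hj
    exact Cardinal.deriv_lt_ord hreg (ne_of_gt (lt_of_le_of_lt hκ hlt01)) hlt hj
  have hμlim : IsSuccLimit μ.ord := Cardinal.isSuccLimit_ord hμ.1
  have hμlt : μ.ord < (succ κ).ord := Cardinal.ord_lt_ord.mpr (lt_of_le_of_lt hμκ hlt01)
  set ε : Ordinal.{0} := E μ.ord with hε
  have hεlt : ε < (succ κ).ord := hElt _ hμlt
  have hεcof : ε.cof = μ := by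
    rw [hε, Ordinal.cof_map_of_isNormal hEn hμlim, hμ.cof_ord]
  have hεlim : IsSuccLimit ε := hEn.map_isSuccLimit hμlim
  -- finite character
  have hfin : ∀ x, Cl f (X ∪ Iio ε) x → ∃ j < μ.ord, Cl f (X ∪ Iio (E j)) x := by
    intro x hx
    induction hx with
    | base x hx =>
      rcases hx with hx | hx
      · exact ⟨0, hμlim.bot_lt, .base x (Or.inl hx)⟩
      · obtain ⟨j, hj, hxj⟩ := (hEn.lt_iff_exists_lt hμlim).mp (show x < E μ.ord from hx)
        exact ⟨j, hj, .base x (Or.inr hxj)⟩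
    | step s _ ih =>
      choose! J hJ hJ2 using ih
      refine ⟨s.sup J, ?_, .step s fun a ha => ?_⟩
      · rw [Finset.sup_lt_iff hμlim.bot_lt]
        exact hJ
      · refine (hJ2 a ha).mono (Set.union_subset_union_right _ (Set.Iio_subset_Iio ?_))
        exact hEn.strictMono.monotone (Finset.le_sup ha)
  -- the trace
  have htrace : {x | Cl f (X ∪ Iio ε) x} ∩ Iio (succ κ).ord = Iio ε := by
    ext x
    constructor
    · rintro ⟨hx, hx1⟩
      obtain ⟨j, hj, hxj⟩ := hfin x hx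
      have h1 : x ≤ h (E j) := hmem (E j) x hxj hx1
      have h3 : succ j < μ.ord := hμlim.succ_lt hj
      exact lt_of_le_of_lt (h1.trans (hEs j)) (hEn.strictMono h3)
    · intro hx
      exact ⟨.base x (Or.inr hx), lt_trans hx hεlt⟩
  have hXsub : X ⊆ {x | Cl f (X ∪ Iio ε) x} := fun x hx => .base x (Or.inl hx)
  refine ⟨{x | Cl f (X ∪ Iio ε) x}, ⟨?_, ?_, ?_, ?_⟩, fun s hs => Cl.step s hs, ε, htrace, hεcof,
    ?_⟩
  · -- below `κ⁺⁺⁺`
    intro x hx
    rw [Set.mem_Iio]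
    induction hx with
    | base x hx =>
      rcases hx with hx | hx
      · exact hX.1 hx
      · exact lt_trans (lt_trans hx hεlt) (Cardinal.ord_lt_ord.mpr (hlt12.trans hlt23))
    | step s _ ih => exact hf s ih
  · -- the size
    apply le_antisymm
    · have hl1 : ℵ₀ ≤ Cardinal.lift.{1} (succ κ) := Cardinal.aleph0_le_lift.mpr hκ1
      have hFX : #(Finset ↥X) ≤ Cardinal.lift.{1} (succ κ) := by
        have : Infinite ↥X := by
          rw [Cardinal.infinite_iff, hX.2.1]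
          exact hl1
        rw [Cardinal.mk_finset_of_infinite, hX.2.1]
      have hD : #↥(Iio ε) ≤ Cardinal.lift.{1} (succ κ) := by
        rw [Cardinal.mk_Iio_ordinal, Cardinal.lift_le]
        exact (Cardinal.lt_ord.mp hεlt).le
      have hFD : #(Finset ↥(Iio ε)) ≤ Cardinal.lift.{1} (succ κ) := by
        rcases finite_or_infinite ↥(Iio ε) with hfin | hinf
        · exact (Cardinal.mk_le_aleph0).trans hl1
        · rw [Cardinal.mk_finset_of_infinite]; exact hD
      let F : Tm × (Finset ↥X × Finset ↥(Iio ε)) → Ordinal.{0} := fun p =>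
        (ev f (asg (p.2.1.map (Function.Embedding.subtype _))
          (p.2.2.map (Function.Embedding.subtype _))) p.1).1
      have hsub : {x | Cl f (X ∪ Iio ε) x} ⊆ range F := by
        classical
        intro x hx
        obtain ⟨s, e, hs, he, h⟩ := rep hx
        obtain ⟨t, ht⟩ := h s e subset_rfl subset_rfl
        refine ⟨(t, s.subtype (· ∈ X), e.subtype (· ∈ Iio ε)), ?_⟩
        simp only [F]
        rw [Finset.subtype_map_of_mem (fun y hy => hs hy),
          Finset.subtype_map_of_mem (fun y hy => he hy)]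
        exact ht
      calc #↥{x | Cl f (X ∪ Iio ε) x} ≤ #↥(range F) := Cardinal.mk_le_mk_of_subset hsub
        _ ≤ #(Tm × (Finset ↥X × Finset ↥(Iio ε))) := Cardinal.mk_range_le
        _ = Cardinal.lift.{1} #Tm * (#(Finset ↥X) * #(Finset ↥(Iio ε))) := by
          simp [Cardinal.mk_prod]
        _ ≤ Cardinal.lift.{1} (succ κ) := by
          refine Cardinal.mul_le_of_le hl1 ?_ (Cardinal.mul_le_of_le hl1 hFX hFD)
          rw [Cardinal.lift_le]
          exact Cardinal.mk_le_aleph0.trans hκ1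
    · rw [← hX.2.1]
      exact Cardinal.mk_le_mk_of_subset hXsub
  · apply le_antisymm
    · exact hsm ε hεlt
    · rw [← hX.2.2.1]
      exact Cardinal.mk_le_mk_of_subset (Set.inter_subset_inter_left _ hXsub)
  · exact hX.2.2.2.trans hXsub
  · apply le_antisymm
    · exact csSup_le' fun x hx => le_of_lt hx
    · by_contra hcon
      rw [not_le] at hcon
      have h3 : succ (sSup (Iio ε)) < ε := hεlim.succ_lt hcon
      have h4 : succ (sSup (Iio ε)) ≤ sSup (Iio ε) :=
        le_csSup ⟨ε, fun x hx => le_of_lt hx⟩ h3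
      exact absurd h4 (not_le.mpr (Order.lt_succ _))

/-- All functions from `κ⁺` to `κ⁺` form such a family if `2 ^ κ⁺ = κ⁺⁺`. -/
theorem dom_of_pow (hκ : ℵ₀ ≤ κ) (h2 : (2 : Cardinal.{0}) ^ succ κ = succ (succ κ)) :
    ∃ D, Dom κ D := by
  have hκ1 : ℵ₀ ≤ succ κ := hκ.trans (Order.lt_succ κ).le
  have hA : #↥(Iio (succ κ).ord) = Cardinal.lift.{1} (succ κ) := by
    rw [Cardinal.mk_Iio_ordinal, Cardinal.card_ord]
  have hB : #↥(Iio (succ (succ κ)).ord) = Cardinal.lift.{1} (succ (succ κ)) := by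
    rw [Cardinal.mk_Iio_ordinal, Cardinal.card_ord]
  have hFun : #↥(Iio (succ (succ κ)).ord)
      = #(↥(Iio (succ κ).ord) → ↥(Iio (succ κ).ord)) := by
    rw [← Cardinal.power_def, hA, hB, ← Cardinal.lift_power, Cardinal.power_self_eq hκ1, h2]
  obtain ⟨ι⟩ := Cardinal.eq.mp hFun
  have hpos1 : (0 : Ordinal.{0}) < (succ κ).ord := by
    rw [Cardinal.lt_ord]
    simp
  refine ⟨fun ξ α => if h : ξ < (succ (succ κ)).ord ∧ α < (succ κ).ord then
    (ι ⟨ξ, h.1⟩ ⟨α, h.2⟩ : ↥(Iio (succ κ).ord)) else 0, ?_, ?_⟩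
  · intro ξ hξ α hα
    simp only [dif_pos (And.intro hξ hα)]
    exact (ι ⟨ξ, hξ⟩ ⟨α, hα⟩).2
  · intro g hg
    refine ⟨(ι.symm fun x => ⟨g x, hg x x.2⟩ : ↥(Iio (succ (succ κ)).ord)),
      (ι.symm fun x => ⟨g x, hg x x.2⟩).2, 0, hpos1, fun α _ hα => ?_⟩
    have hmem : ((ι.symm fun x => ⟨g x, hg x x.2⟩ : ↥(Iio (succ (succ κ)).ord)) : Ordinal.{0})
        < (succ (succ κ)).ord := (ι.symm fun x => ⟨g x, hg x x.2⟩).2
    simp only [dif_pos (And.intro hmem hα)]
    have h3 : (⟨((ι.symm fun x => ⟨g x, hg x x.2⟩ : ↥(Iio (succ (succ κ)).ord)) : Ordinal.{0}),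
        hmem⟩ : ↥(Iio (succ (succ κ)).ord)) = ι.symm fun x => ⟨g x, hg x x.2⟩ := Subtype.ext rfl
    rw [h3, Equiv.apply_symm_apply]

end Main

/-- Let `κ` be an infinite cardinal such that `2 ^ κ⁺ = κ⁺⁺` or, more generally, such that there is
a family of `κ⁺⁺` functions from `κ⁺` to `κ⁺` which is dominating modulo bounded sets. If every
finitary function on `κ⁺⁺⁺` has a closed Chang set `X` (`κ ⊆ X`, `|X| = κ⁺`, `|X ∩ κ⁺⁺| = κ`), then
for every regular cardinal `μ ≤ κ` every finitary function on `κ⁺⁺⁺` has a closed Chang set `X` such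
that `X ∩ κ⁺` is an ordinal of cofinality `μ`. -/
theorem result (κ : Cardinal.{0}) (hκ : Cardinal.aleph0 ≤ κ)
    (hD : (2 : Cardinal.{0}) ^ Order.succ κ = Order.succ (Order.succ κ) ∨
      ∃ D : Ordinal.{0} → Ordinal.{0} → Ordinal.{0},
        (∀ ξ < (Order.succ (Order.succ κ)).ord, ∀ α < (Order.succ κ).ord,
          D ξ α < (Order.succ κ).ord) ∧
        ∀ g : Ordinal.{0} → Ordinal.{0},
          (∀ α < (Order.succ κ).ord, g α < (Order.succ κ).ord) →
          ∃ ξ < (Order.succ (Order.succ κ)).ord, ∃ β < (Order.succ κ).ord,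
            ∀ α, β ≤ α → α < (Order.succ κ).ord → g α ≤ D ξ α)
    (H : ∀ f : Finset Ordinal.{0} → Ordinal.{0},
        (∀ s : Finset Ordinal.{0},
          (∀ a ∈ s, a < (Order.succ (Order.succ (Order.succ κ))).ord) →
            f s < (Order.succ (Order.succ (Order.succ κ))).ord) →
        ∃ X : Set Ordinal.{0},
          X ⊆ Set.Iio (Order.succ (Order.succ (Order.succ κ))).ord ∧
          (∀ s : Finset Ordinal.{0}, (∀ a ∈ s, a ∈ X) → f s ∈ X) ∧
          Cardinal.mk X = Cardinal.lift.{1} (Order.succ κ) ∧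
          Cardinal.mk ↥(X ∩ Set.Iio (Order.succ (Order.succ κ)).ord) = Cardinal.lift.{1} κ ∧
          Set.Iio κ.ord ⊆ X) :
    ∀ μ : Cardinal.{0}, μ.IsRegular → μ ≤ κ →
      ∀ f : Finset Ordinal.{0} → Ordinal.{0},
        (∀ s : Finset Ordinal.{0},
          (∀ a ∈ s, a < (Order.succ (Order.succ (Order.succ κ))).ord) →
            f s < (Order.succ (Order.succ (Order.succ κ))).ord) →
        ∃ X : Set Ordinal.{0},
          X ⊆ Set.Iio (Order.succ (Order.succ (Order.succ κ))).ord ∧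
          (∀ s : Finset Ordinal.{0}, (∀ a ∈ s, a ∈ X) → f s ∈ X) ∧
          Cardinal.mk X = Cardinal.lift.{1} (Order.succ κ) ∧
          Cardinal.mk ↥(X ∩ Set.Iio (Order.succ (Order.succ κ)).ord) = Cardinal.lift.{1} κ ∧
          Set.Iio κ.ord ⊆ X ∧
          ∃ ε : Ordinal.{0}, X ∩ Set.Iio (Order.succ κ).ord = Set.Iio ε ∧
            sSup (X ∩ Set.Iio (Order.succ κ).ord) = ε ∧ Ordinal.cof ε = μ := by
  intro μ hμ hμκ f hf
  have hD' : ∃ D, Dom κ D := by
    rcases hD with h | ⟨D, h⟩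
    · exact dom_of_pow hκ h
    · exact ⟨D, h⟩
  obtain ⟨D, hD'⟩ := hD'
  obtain ⟨Y, hY, hcl, ε, htr, hcof, hsup⟩ := main hκ hD'
    (fun f hf => by
      obtain ⟨X, h1, h2, h3, h4, h5⟩ := H f hf
      exact ⟨X, ⟨h1, h3, h4, h5⟩, h2⟩) μ hμ hμκ f hf
  exact ⟨Y, hY.1, hcl, hY.2.1, hY.2.2.1, hY.2.2.2, ε, htr, by rw [htr, hsup], hcof⟩

end Pool.Agent.TH233.CT.TraceCofinality
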